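import Pool.Agent.H986R2.K4.All

set_option autoImplicit false

/-!
# MP_5a4862_nt: the zeros of the high derivatives of the Riemann xi function, and the constant 4

For every `κ < 4` and all `n ≥ N(κ)`, all zeros of the `n`-th derivative of `ξ` up to height `exp (κ n)`
are simple and on the line `Re s = 1/2`.  The constant `4` can be improved if and only if the zeta
function has a zero-free half-plane `Re s > θ` with `θ < 1`.
-/

namespace Pool.Agent.Results.MP_5a4862_nt.DerivativesOnLine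

/-- The Riemann xi function `s (s - 1) π^(-s/2) Γ(s/2) ζ(s) / 2`, as an entire function. -/
noncomputable def xi (s : ℂ) : ℂ := s * (s - 1) / 2 * completedRiemannZeta₀ s + 1 / 2

/-- For all large `n` every zero of `ξ^(n)` up to height `exp (κ n)` is simple and on the line. -/
def OnLine (κ : ℝ) : Prop := ∃ N : ℕ, ∀ n : ℕ, N ≤ n → ∀ s : ℂ, iteratedDeriv n xi s = 0 →
  |s.im| ≤ Real.exp (κ * n) → s.re = 1 / 2 ∧ iteratedDeriv (n + 1) xi s ≠ 0

/-- The zeta function has no zeros with `Re s > θ`. -/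
def ZeroFree (θ : ℝ) : Prop := ∀ s : ℂ, θ < s.re → riemannZeta s ≠ 0

theorem result :
    (∀ κ : ℝ, κ < 4 → OnLine κ) ∧
    (∀ θ : ℝ, 1 / 2 ≤ θ → θ < 1 → ZeroFree θ → ∀ κ : ℝ, κ * (θ - 1 / 2) < 2 → OnLine κ) ∧
    ((∃ κ : ℝ, 4 < κ ∧ OnLine κ) ↔ ∃ θ : ℝ, θ < 1 ∧ ZeroFree θ) := by
  obtain ⟨h1, h2, h3⟩ := Pool.Agent.H986R2.K4.finalT
  have hA := Pool.Agent.H986R2.K4.merA
  have hB := Pool.Agent.H986R2.K4.merB
  refine ⟨h1, fun θ h0 h01 hz => h2 θ h0 h01 (hA θ h0 h01 hz), ?_⟩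
  refine h3.trans ⟨?_, ?_⟩
  · rintro ⟨θ, C, hθ, h⟩
    obtain ⟨θ', hθ'⟩ : ∃ θ' : ℝ, θ' = max θ (1 / 2) := ⟨_, rfl⟩
    have e1 : θ ≤ θ' := by rw [hθ']; exact le_max_left _ _
    have e2 : 1 / 2 ≤ θ' := by rw [hθ']; exact le_max_right _ _
    have e3 : θ' < 1 := by rw [hθ']; exact max_lt hθ (by norm_num)
    refine ⟨θ', e3, hB θ' (max C 0) (by linarith) fun x hx => ?_⟩
    refine (h x hx).trans ?_
    calc C * x ^ θ ≤ max C 0 * x ^ θ := mul_le_mul_of_nonneg_right (le_max_left _ _) (by positivity)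
      _ ≤ max C 0 * x ^ θ' :=
          mul_le_mul_of_nonneg_left (Real.rpow_le_rpow_of_exponent_le hx e1) (le_max_right _ _)
  · rintro ⟨θ, hθ, hz⟩
    obtain ⟨θ', hθ'⟩ : ∃ θ' : ℝ, θ' = max θ (1 / 2) := ⟨_, rfl⟩
    have e1 : θ ≤ θ' := by rw [hθ']; exact le_max_left _ _
    have e2 : 1 / 2 ≤ θ' := by rw [hθ']; exact le_max_right _ _
    have e3 : θ' < 1 := by rw [hθ']; exact max_lt hθ (by norm_num)
    obtain ⟨C, hC⟩ := hA θ' e2 e3 (fun s hs => hz s (e1.trans_lt hs)) ((θ' + 1) / 2) (by linarith)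
    exact ⟨(θ' + 1) / 2, C, by linarith, hC⟩

end Pool.Agent.Results.MP_5a4862_nt.DerivativesOnLine
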