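import Pool.Agent.X9.Li.Xi
import Pool.Agent.X9.Li.Exact

set_option autoImplicit false

/-!
# MP_5a4862_nt: zero-free half-planes and the Li coefficients along sparse sets of indices

For `1/2 ≤ σ < 1` the map `w ↦ (1 - (2 σ - 1) w) / (1 - w)` sends the unit disc to `Re s > σ` and `0`
to `1`.  Let `li σ n` be `n` times the `n`-th Taylor coefficient at `0` of the logarithm of `2 ξ` in
this coordinate (the Li coefficients; the classical ones for `σ = 1/2`).  By Li (1997) and Freitas (2006)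
zeta has no zeros with `Re s > σ` if and only if `li σ n ≥ 0` for all `n ≥ 1`.

We show that it is enough to look at the indices `n` of any set `S` of Bohr recurrence, for instance
at the differences of the elements of any infinite set of integers, such as `2^a - 2^b`, or at the
`k`-th powers.  If there are zeros with `Re s > σ` then `li σ n` is exponentially large negative for
infinitely many `n` in `S`.  Sets of Bohr recurrence are exactly the sets of indices for which the
analogous test for finite multisets with the symmetries of the zeros is correct.  Some condition on `S`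
is needed: there is a set of indices with bounded gaps on which `li σ n > 0` holds without any
hypothesis.
-/

namespace Pool.Agent.Results.MP_5a4862_nt.LiRecurrence

open Complex

/-- The Riemann xi function `s (s - 1) π^(-s/2) Γ(s/2) ζ(s) / 2`, as an entire function. -/
noncomputable def xi (s : ℂ) : ℂ := s * (s - 1) / 2 * completedRiemannZeta₀ s + 1 / 2

/-- The `n`-th Li coefficient for the half-plane `Re s > σ`: the `n`-th derivative at `w = 0` of
`log (2 ξ((1 - (2 σ - 1) w) / (1 - w)))` divided by `(n - 1)!`. For `σ = 1/2` this is the classical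
`λ_n`, the `n`-th derivative at `0` of `log (2 ξ(1 / (1 - w)))` divided by `(n - 1)!`. -/
noncomputable def li (σ : ℝ) (n : ℕ) : ℝ :=
  (iteratedDeriv n (fun w : ℂ => Complex.log (2 * xi ((1 - (2 * σ - 1) * w) / (1 - w)))) 0 /
    (n - 1).factorial).re

/-- The zeta function has no zeros with `Re s > σ`. -/
def ZeroFree (σ : ℝ) : Prop := ∀ s : ℂ, σ < s.re → riemannZeta s ≠ 0

/-- `S` is a set of Bohr recurrence: it contains, for all real `θ 0, ..., θ (d - 1)` and all `ε > 0`, a
positive integer `n` such that all `n * θ i` are at distance less than `ε` from the integers. -/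
def BohrRec (S : Set ℕ) : Prop :=
  ∀ (d : ℕ) (θ : Fin d → ℝ) (ε : ℝ), 0 < ε →
    ∃ n ∈ S, 0 < n ∧ ∀ i, |(n : ℝ) * θ i - round ((n : ℝ) * θ i)| < ε

theorem result :
    -- the criterion along a set of Bohr recurrence
    (∀ S : Set ℕ, BohrRec S → ∀ σ : ℝ, 1 / 2 ≤ σ → σ < 1 →
      (ZeroFree σ ↔ ∀ n ∈ S, 0 < n → 0 ≤ li σ n) ∧
      (¬ ZeroFree σ → ∃ R : ℝ, 1 < R ∧ ∀ N : ℕ, ∃ n ∈ S, N ≤ n ∧ li σ n ≤ -R ^ n)) ∧
    (RiemannHypothesis ↔ ZeroFree (1 / 2)) ∧
    -- examples
    (∀ D : Set ℕ, D.Infinite → BohrRec {n | ∃ a ∈ D, ∃ b ∈ D, b < a ∧ n = a - b}) ∧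
    (∀ k : ℕ, 1 ≤ k → BohrRec {n | ∃ a : ℕ, n = a ^ k}) ∧
    -- exactness for finite multisets with the symmetries `ρ ↦ conj ρ` and `ρ ↦ 1 - ρ`
    (∀ S : Set ℕ, BohrRec S ↔ ∀ Z : Multiset ℂ, (0 : ℂ) ∉ Z → Z.map (starRingEnd ℂ) = Z →
      Z.map (fun ρ => 1 - ρ) = Z →
      (∀ n ∈ S, 0 < n → 0 ≤ (Z.map fun ρ => 1 - (1 - 1 / ρ) ^ n).sum.re) → ∀ ρ ∈ Z, ρ.re = 1 / 2) ∧
    -- positivity on a set of indices with bounded gaps, without hypothesis
    (∀ σ : ℝ, 1 / 2 ≤ σ → σ < 1 → ∃ L : ℕ, ∀ m : ℕ, ∃ n, m ≤ n ∧ n ≤ m + L ∧ 0 < li σ n) :=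
  ⟨fun _ hS _ h1 h2 => Pool.Agent.X9.Li.criterion h1 h2 hS, Pool.Agent.X9.Li.rh_iff,
    fun _ hD => Pool.Agent.X9.Li.bohr_diff hD, fun _ hk => Pool.Agent.X9.Li.bohr_pow hk,
    fun _ => ⟨fun hS Z h0 _ hs h => Pool.Agent.X9.Li.test_of_bohr hS Z h0 hs h,
      fun H => Pool.Agent.X9.Li.bohr_of_test H⟩,
    fun _ h1 h2 => Pool.Agent.X9.Li.syndetic_pos h1 h2⟩

end Pool.Agent.Results.MP_5a4862_nt.LiRecurrence
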