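import Pool.Agent.X110.RA7

set_option autoImplicit false

/-!
# The anatomy of the exceptions to Robin's inequality and zero-free half-planes

Robin's inequality for `n` reads `σ(n) < e^γ n log log n`; the Riemann hypothesis holds if and only if
all its exceptions are at most `5040`.  We determine, in terms of the width of the zero-free half-plane,
the shape of the large exceptions: how small the exponent of a given prime can be, how large a prime
factor or the quotient of `n` by its radical, and how many primes up to `log n` can be missing.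
-/

open Filter Topology

namespace Pool.Agent.Results.MP_5a4862_nt.RobinAnatomy

/-- Robin's inequality fails for `n`. -/
def Fails (n : ℕ) : Prop :=
  Real.exp Real.eulerMascheroniConstant * n * Real.log (Real.log n) ≤ ((ArithmeticFunction.sigma 1 n : ℕ) : ℝ)

/-- The zeta function has no zeros with `Re s > θ`. -/
def ZeroFree (θ : ℝ) : Prop := ∀ s : ℂ, θ < s.re → riemannZeta s ≠ 0

/-- The radical of `n`. -/
def rad (n : ℕ) : ℕ := ∏ p ∈ n.primeFactors, p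

/-- The number of the primes up to `log n` which do not divide `n`. -/
noncomputable def missing (n : ℕ) : ℕ := Set.ncard {p : ℕ | p.Prime ∧ (p : ℝ) ≤ Real.log n ∧ ¬ p ∣ n}

lemma missing_eq {n : ℕ} (hn : 0 < n) : missing n = (X110.RA.miss n).card := by
  unfold missing
  rw [← Set.ncard_coe_finset]
  congr 1
  ext p
  unfold X110.RA.miss
  have h0 : 0 ≤ Real.log (n : ℝ) := Real.log_nonneg (by exact_mod_cast hn)
  rw [Finset.mem_coe, Finset.mem_sdiff, X110.RA.mem_UU h0, Nat.mem_primeFactors, Set.mem_setOf_eq]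
  constructor
  · rintro ⟨h1, h2, h3⟩
    exact ⟨⟨h1, h2⟩, fun h => h3 h.2.1⟩
  · rintro ⟨⟨h1, h2⟩, h3⟩
    exact ⟨h1, h2, fun h => h3 ⟨h1, h, hn.ne'⟩⟩

lemma A5_iff (κ : ℝ) : X110.RA.A5 κ ↔
    ∀ᶠ n : ℕ in atTop, Fails n → (n : ℝ) ≤ Real.exp ((Real.log n) ^ κ) * rad n := by
  unfold X110.RA.A5 rad
  simp only [Nat.cast_prod]
  exact Iff.rfl

lemma A6_iff (κ : ℝ) : X110.RA.A6 κ ↔
    ∀ᶠ n : ℕ in atTop, Fails n → (missing n : ℝ) ≤ (Real.log n) ^ κ := by
  unfold X110.RA.A6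
  refine eventually_congr ?_
  filter_upwards [eventually_gt_atTop 0] with n hn
  rw [missing_eq hn]
  exact Iff.rfl

/-- **The anatomy of the exceptions to Robin's inequality.** -/
theorem result :
    -- the zero-free half-plane `Re s > θ` in terms of the exceptions
    (∀ θ : ℝ, 1 / 2 ≤ θ → θ < 1 → ∀ q : ℕ, q.Prime → List.TFAE [
      ZeroFree θ,
      ∀ ε : ℝ, 0 < ε → ∀ᶠ n : ℕ in atTop, Fails n → (Real.log n) ^ (1 - θ - ε) ≤ (q : ℝ) ^ (n.factorization q),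
      ∀ ε : ℝ, 0 < ε → ∀ᶠ n : ℕ in atTop, Fails n → ∀ p : ℕ, p.Prime →
        (Real.log n) ^ (1 - θ - ε) ≤ (p : ℝ) ^ (n.factorization p + 1),
      ∀ ε : ℝ, 0 < ε → ∀ᶠ n : ℕ in atTop, Fails n → ∀ p : ℕ, p.Prime → p ∣ n →
        (p : ℝ) ≤ Real.exp ((Real.log n) ^ (θ + ε)),
      ∀ ε : ℝ, 0 < ε → ∀ᶠ n : ℕ in atTop, Fails n → (n : ℝ) ≤ Real.exp ((Real.log n) ^ (θ + ε)) * rad n,
      ∀ ε : ℝ, 0 < ε → ∀ᶠ n : ℕ in atTop, Fails n → (missing n : ℝ) ≤ (Real.log n) ^ ((1 + θ) / 2 + ε)]) ∧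
    -- the existence of a zero-free half-plane
    (List.TFAE [
      ∃ θ : ℝ, θ < 1 ∧ ZeroFree θ,
      ∃ c : ℝ, 0 < c ∧ ∀ᶠ n : ℕ in atTop, Fails n → c * Real.log (Real.log n) ≤ n.factorization 2,
      ∃ c : ℝ, 0 < c ∧ ∀ᶠ n : ℕ in atTop, Fails n → ∀ p : ℕ, p.Prime →
        (Real.log n) ^ c ≤ (p : ℝ) ^ (n.factorization p + 1),
      ∃ c : ℝ, c < 1 ∧ ∀ᶠ n : ℕ in atTop, Fails n → ∀ p : ℕ, p.Prime → p ∣ n → (p : ℝ) ≤ Real.exp ((Real.log n) ^ c),
      ∃ c : ℝ, c < 1 ∧ ∀ᶠ n : ℕ in atTop, Fails n → (n : ℝ) ≤ Real.exp ((Real.log n) ^ c) * rad n,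
      ∃ c : ℝ, c < 1 ∧ ∀ᶠ n : ℕ in atTop, Fails n → (missing n : ℝ) ≤ (Real.log n) ^ c]) ∧
    -- what holds unconditionally
    (∀ A : ℝ, ∀ᶠ n : ℕ in atTop, Fails n →
      (∀ p : ℕ, p.Prime → (Real.log (Real.log n)) ^ A ≤ (p : ℝ) ^ (n.factorization p + 1)) ∧
      (∀ p : ℕ, p.Prime → p ∣ n → (p : ℝ) ≤ Real.exp (Real.log n / (Real.log (Real.log n)) ^ A)) ∧
      ((n : ℝ) ≤ Real.exp (Real.log n / (Real.log (Real.log n)) ^ A) * rad n) ∧
      (missing n : ℝ) ≤ Real.log n / (Real.log (Real.log n)) ^ A) := by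
  refine ⟨fun θ h0 h1 q hq => ?_, ?_, fun A => ?_⟩
  · simp only [← A5_iff, ← A6_iff]
    exact X110.RA.main_tfae h0 h1 hq
  · simp only [← A5_iff, ← A6_iff]
    exact X110.RA.quasi_tfae
  · filter_upwards [X110.RA.uncond A, eventually_gt_atTop 0] with n h hn hF
    obtain ⟨h1, h2, h3, h4⟩ := h hF
    refine ⟨h1, h2, ?_, ?_⟩
    · unfold rad
      rw [Nat.cast_prod]
      exact h3
    · rw [missing_eq hn]
      exact h4

end Pool.Agent.Results.MP_5a4862_nt.RobinAnatomy
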