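import Pool.Agent.X112.RO.U

set_option autoImplicit false

/-!
# Zero-free half-planes and the number of exceptions to Robin's inequality

Robin's inequality for `n` reads `σ(n) < e^γ n log log n`.  Let `E(X)` be the number of integers
`1 ≤ n ≤ X` for which it fails.
-/

open Filter Topology

namespace Pool.Agent.Results.MP_5a4862_nt.RobinExceptions

/-- **Zero-free half-planes and exceptions to Robin's inequality.**

Part 1: there is a zero-free half-plane `Re s ≥ σ₀` with `1/2 < σ₀ < 1` if and only if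
`E(X) ≤ exp((log X)^c)` for some `c < 1` and all large `X`.

Part 2: for `1/2 ≤ θ < 1` the zeta function has no zero with real part above `θ` if and only if for
every `ε > 0` one has `E(X) ≤ exp((log X)^{(1+θ)/2+ε})` for all large `X`.

Part 3: a zero with real part `β > 1/2` forces `E(X) ≥ exp((log X)^{(1+β)/2-ε})` for arbitrarily large
`X`.

Part 4: unconditionally, for every `K` one has `E(X) ≤ exp(log X / (log log X)^K)` for all large `X`. -/
theorem result :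
    ((∃ σ₀ : ℝ, 1 / 2 < σ₀ ∧ σ₀ < 1 ∧ ∀ s : ℂ, σ₀ ≤ s.re → riemannZeta s ≠ 0) ↔
      ∃ c : ℝ, c < 1 ∧ ∀ᶠ X : ℝ in atTop,
      (Set.ncard {n : ℕ | 1 ≤ n ∧ (n : ℝ) ≤ X ∧
        Real.exp Real.eulerMascheroniConstant * n * Real.log (Real.log n) ≤
          ((ArithmeticFunction.sigma 1 n : ℕ) : ℝ)} : ℝ) ≤ Real.exp ((Real.log X) ^ c)) ∧
    (∀ θ : ℝ, 1 / 2 ≤ θ → θ < 1 →
      ((∀ s : ℂ, θ < s.re → riemannZeta s ≠ 0) ↔ ∀ ε : ℝ, 0 < ε → ∀ᶠ X : ℝ in atTop,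
      (Set.ncard {n : ℕ | 1 ≤ n ∧ (n : ℝ) ≤ X ∧
        Real.exp Real.eulerMascheroniConstant * n * Real.log (Real.log n) ≤
          ((ArithmeticFunction.sigma 1 n : ℕ) : ℝ)} : ℝ) ≤ Real.exp ((Real.log X) ^ ((1 + θ) / 2 + ε)))) ∧
    (∀ ρ : ℂ, riemannZeta ρ = 0 → 1 / 2 < ρ.re → ∀ ε : ℝ, 0 < ε →
      ∃ᶠ X : ℝ in atTop, Real.exp ((Real.log X) ^ ((1 + ρ.re) / 2 - ε)) ≤
      (Set.ncard {n : ℕ | 1 ≤ n ∧ (n : ℝ) ≤ X ∧
        Real.exp Real.eulerMascheroniConstant * n * Real.log (Real.log n) ≤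
          ((ArithmeticFunction.sigma 1 n : ℕ) : ℝ)} : ℝ)) ∧
    (∀ K : ℕ, ∀ᶠ X : ℝ in atTop,
      (Set.ncard {n : ℕ | 1 ≤ n ∧ (n : ℝ) ≤ X ∧
        Real.exp Real.eulerMascheroniConstant * n * Real.log (Real.log n) ≤
          ((ArithmeticFunction.sigma 1 n : ℕ) : ℝ)} : ℝ) ≤ Real.exp (Real.log X / (Real.log (Real.log X)) ^ K)) := by
  refine ⟨?_, fun θ h0 h1 => Pool.Agent.X112.RO.main_iff h0 h1,
    fun ρ hz hρ ε hε => Pool.Agent.X112.RO.EX_lower_zero hz hρ (by linarith),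
    fun K => Pool.Agent.X112.RO.EX_uncond K⟩
  constructor
  · rintro ⟨σ₀, h1, h2, h3⟩
    refine ⟨(1 + σ₀) / 2 + (1 - σ₀) / 4, by linarith, ?_⟩
    exact (Pool.Agent.X112.RO.main_iff h1.le h2).1 (fun s hs => h3 s hs.le) ((1 - σ₀) / 4) (by linarith)
  · rintro ⟨c, hc, h⟩
    obtain ⟨θ, hθ⟩ : ∃ θ, θ = max (3 / 4) c := ⟨_, rfl⟩
    have hθ1 : θ < 1 := by rw [hθ]; exact max_lt (by norm_num) hc
    have hθ2 : 3 / 4 ≤ θ := by rw [hθ]; exact le_max_left _ _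
    have hθ3 : c ≤ θ := by rw [hθ]; exact le_max_right _ _
    refine ⟨θ, by linarith, hθ1, fun s hs hz => ?_⟩
    have h2 := Pool.Agent.X112.RO.EX_lower_zero hz (by linarith) (c := (1 + s.re) / 2 - (1 - θ) / 8)
      (by linarith)
    have h4 : ∀ᶠ X : ℝ in atTop, 1 < Real.log X := Real.tendsto_log_atTop.eventually (eventually_gt_atTop 1)
    obtain ⟨X, g1, g2, g3⟩ := (h2.and_eventually (h.and h4)).exists
    have g4 := Real.exp_le_exp.1 (g1.trans g2)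
    have g5 : Real.log X ^ c < Real.log X ^ ((1 + s.re) / 2 - (1 - θ) / 8) :=
      Real.rpow_lt_rpow_of_exponent_lt g3 (by linarith)
    linarith

end Pool.Agent.Results.MP_5a4862_nt.RobinExceptions
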